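import Pool.Agent.W2helper45.UC.Stm

/-!
# Project UC, piece DIA: the diagonal degrees are not zero
-/

set_option autoImplicit false

namespace Pool.Agent.W2helper39.UC

open Pool.Agent.W2helper45.UC
open Pool.Agent.X153.CH (rk)

variable {n : ℕ}

theorem ch_zero (k : ℕ) : ch k 0 = 1 := by
  rw [ch, if_pos le_rfl]
  simp

theorem du_apply {m : Ex n} {H : Finset (Fin n)} (h : H ≠ Finset.univ) (hm : H ∈ m.support) :
    du m H = H.card - pr Finset.card m H - m H := by
  rw [du, Finsupp.onFinset_apply, if_neg h, if_pos hm]

theorem du_out {m : Ex n} {H : Finset (Fin n)} (h : H ≠ Finset.univ) (hm : H ∉ m.support) :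
    du m H = 0 := by
  rw [du, Finsupp.onFinset_apply, if_neg h, if_neg hm]

theorem rk_eq {r : ℕ} {m : Ex n} (hm : IsCh r m) {G : Finset (Fin n)} (hG : G ∈ m.support)
    (hu : G ≠ Finset.univ) : rk r G = G.card := by
  rcases (hm.1 G hG).2 with h | h
  · exact min_eq_left h.le
  · exact absurd h hu

theorem pr_rk {r : ℕ} {m : Ex n} (hm : IsCh r m) (H : Finset (Fin n)) :
    pr (rk r) m H = pr Finset.card m H := by
  unfold pr
  refine Finset.sup_congr rfl fun G hG => ?_
  rw [Finset.mem_filter] at hG
  refine rk_eq hm hG.1 ?_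
  rintro rfl
  exact hG.2.2 (Finset.subset_univ _)

theorem add_du {r : ℕ} {m : Ex n} (hm : FY r m) {H : Finset (Fin n)} (h : H ≠ Finset.univ)
    (hH : H ∈ m.support) :
    (m + du m) H = H.card - pr Finset.card m H ∧ m H + pr Finset.card m H < H.card := by
  have h1 := hm.2 H hH
  rw [pr_rk hm.1, rk_eq hm.1 hH h] at h1
  refine ⟨?_, h1⟩
  rw [Finsupp.add_apply, du_apply h hH]
  omega

theorem mem_supp {m : Ex n} {H : Finset (Fin n)} (h : H ≠ Finset.univ) :
    H ∈ (m + du m).support ↔ H ∈ m.support := by
  constructor
  · intro hH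
    by_contra hcon
    rw [Finsupp.mem_support_iff, Finsupp.add_apply, du_out h hcon,
      Finsupp.notMem_support_iff.1 hcon] at hH
    exact hH rfl
  · intro hH
    rw [Finsupp.mem_support_iff, Finsupp.add_apply]
    rw [Finsupp.mem_support_iff] at hH
    omega

theorem D_ne {r : ℕ} {m : Ex n} (hm : FY r m) : ∀ (k : ℕ) (U : Finset (Fin n)),
    n - U.card = k → (U = ∅ ∨ U ∈ m.support) → U ≠ Finset.univ → D (m + du m) U 0 ≠ 0 := by
  intro k
  induction k using Nat.strong_induction_on with
  | _ k ih =>
    intro U hk hU hUu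
    rcases (ab (m + du m) U).eq_empty_or_nonempty with h0 | h0
    · rw [D_top h0, ch_zero]
      exact mul_ne_zero (pow_ne_zero _ (by norm_num)) one_ne_zero
    · obtain ⟨F, hF, hmin⟩ := (ab (m + du m) U).exists_minimal h0
      have hab : ∀ {H}, H ∈ ab (m + du m) U → H ∈ m.support ∧ U ⊂ H ∧ H ≠ Finset.univ := by
        intro H hH
        rw [mem_ab] at hH
        exact ⟨(mem_supp hH.2.2).1 hH.1, hH.2⟩
      obtain ⟨hFm, hUF, hFu⟩ := hab hF
      have hleast : ∀ H ∈ ab (m + du m) U, F ⊆ H := by
        intro H hH
        rcases hm.1.2.total hFm (hab hH).1 with h | h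
        · exact h
        · exact hmin hH h
      have hpr : pr Finset.card m F = U.card := by
        unfold pr
        refine le_antisymm (Finset.sup_le fun G hG => ?_) ?_
        · rw [Finset.mem_filter] at hG
          have hGu : G ≠ Finset.univ := by
            rintro rfl
            exact hG.2.2 (Finset.subset_univ _)
          have hGU : ¬ U ⊂ G := fun hc =>
            hG.2.2 (hleast G (mem_ab.2 ⟨(mem_supp hGu).2 hG.1, hc, hGu⟩))
          rcases hU with rfl | hU
          · have := (hm.1.1 G hG.1).1
            exact absurd (Finset.ssubset_iff_subset_ne.2 ⟨Finset.empty_subset _, this.ne_empty.symm⟩)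
              hGU
          · rcases hm.1.2.total hG.1 hU with h | h
            · exact Finset.card_le_card h
            · by_contra hc
              exact hGU (Finset.ssubset_iff_subset_ne.2 ⟨h, fun he => hc (by rw [he])⟩)
        · rcases hU with rfl | hU
          · simp
          · exact Finset.le_sup (f := Finset.card) (Finset.mem_filter.2 ⟨hU, hUF⟩)
      have hcard := Finset.card_lt_card hUF
      have h1 := add_du hm hFu hFm
      rw [hpr] at h1
      have h2 : (0 : ℤ) + ((m + du m) F : ℕ) - ((F.card : ℤ) - U.card) = 0 := by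
        rw [h1.1, Nat.cast_sub hcard.le]
        ring
      have h3 : D (m + du m) F 0 ≠ 0 := by
        refine ih (n - F.card) ?_ F rfl (Or.inr hFm) hFu
        have h4 := Finset.card_le_univ F
        rw [Fintype.card_fin] at h4
        omega
      rw [D_least hF hleast, h2, ch_zero, ch_zero]
      exact mul_ne_zero (mul_ne_zero one_ne_zero (mul_ne_zero (pow_ne_zero _ (by norm_num))
        one_ne_zero)) h3

theorem p_dia : P_DIA := by
  classical
  intro n r m hr hrn hm
  have hne : (∅ : Finset (Fin n)) ≠ Finset.univ := by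
    intro h
    have h1 := congrArg Finset.card h
    rw [Finset.card_empty, Finset.card_univ, Fintype.card_fin] at h1
    omega
  unfold Df
  rw [if_pos]
  · exact D_ne hm _ ∅ rfl (Or.inl rfl) hne
  · refine ⟨?_, ?_⟩
    · rw [mem_supp hne]
      intro h
      exact absurd (hm.1.1 _ h).1 (by simp)
    · intro A hA B hB hAB
      rw [Finset.mem_coe] at hA hB
      by_cases h1 : A = Finset.univ
      · right
        rw [h1]
        exact Finset.subset_univ _
      · by_cases h2 : B = Finset.univ
        · left
          rw [h2]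
          exact Finset.subset_univ _
        · exact hm.1.2 ((mem_supp h1).1 hA) ((mem_supp h2).1 hB) hAB

end Pool.Agent.W2helper39.UC
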