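import Pool.Agent.W2helper45.UC.Stm

/-!
# Project UC, piece MAP: the elements `x_F` of the Chow ring
-/

set_option autoImplicit false

namespace Pool.Agent.W2helper39.UC

open MvPolynomial
open Pool.Agent.W2helper45.UC
open Pool.Agent.X153.CH (rk flats)

variable {n : ℕ}

theorem univ_isFl {r : ℕ} (hn : 1 ≤ n) : IsFl r (Finset.univ : Finset (Fin n)) :=
  ⟨⟨⟨0, hn⟩, Finset.mem_univ _⟩, Or.inr rfl⟩

theorem fl_iff {r : ℕ} {F : Finset (Fin n)} (h : F ≠ Finset.univ) :
    (F ∈ flats n r ∧ F ≠ ∅ ∧ F ≠ Finset.univ) ↔ IsFl r F := by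
  unfold IsFl flats
  rw [Finset.mem_filter, Finset.nonempty_iff_ne_empty]
  simp only [Finset.mem_univ, true_and]
  tauto

/-- Sums over the sets which contain `i`. -/
theorem sum_fl {r : ℕ} {A : Type*} [AddCommMonoid A] (y : Finset (Fin n) → A)
    (hy : ∀ F, ¬ IsFl r F → y F = 0) (i : Fin n) :
    ∑ F : Finset (Fin n) with i ∈ F, y F =
      ∑ G : Fl n r with i ∈ G.1, y G.1 + y Finset.univ := by
  classical
  have hu : (Finset.univ : Finset (Fin n)) ∈
      (Finset.univ.filter fun F : Finset (Fin n) => i ∈ F) :=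
    Finset.mem_filter.2 ⟨Finset.mem_univ _, Finset.mem_univ _⟩
  rw [← Finset.sum_erase_add _ _ hu]
  congr 1
  symm
  have h1 : ∑ G : Fl n r with i ∈ G.1, y G.1 =
      ∑ F ∈ (Finset.univ.filter fun G : Fl n r => i ∈ G.1).map
        (Function.Embedding.subtype _), y F := by
    rw [Finset.sum_map]
    rfl
  rw [h1]
  refine Finset.sum_subset ?_ ?_
  · intro F hF
    rw [Finset.mem_map] at hF
    obtain ⟨G, hG, rfl⟩ := hF
    rw [Finset.mem_filter] at hG
    exact Finset.mem_erase.2 ⟨G.2.2.2, Finset.mem_filter.2 ⟨Finset.mem_univ _, hG.2⟩⟩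
  · intro F hF hnot
    rw [Finset.mem_erase, Finset.mem_filter] at hF
    refine hy F fun hfl => hnot ?_
    rw [Finset.mem_map]
    exact ⟨⟨F, (fl_iff hF.1).2 hfl⟩, Finset.mem_filter.2 ⟨Finset.mem_univ _, hF.2.2⟩, rfl⟩

/-- the lift of `xc` to the polynomial ring -/
noncomputable def xl (n r : ℕ) (i₀ : Fin n) (F : Finset (Fin n)) : MvPolynomial (Fl n r) ℚ :=
  open Classical in
  if h : F ∈ flats n r ∧ F ≠ ∅ ∧ F ≠ Finset.univ then X ⟨F, h⟩
  else if F = Finset.univ then - ∑ G : Fl n r with i₀ ∈ G.1, X G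
  else 0

theorem xc_eq (n r : ℕ) (i₀ : Fin n) (F : Finset (Fin n)) :
    xc n r i₀ F = Ideal.Quotient.mk (chowIdeal n r) (xl n r i₀ F) := by
  unfold xc xl
  split_ifs with h1 h2
  · rfl
  · rw [map_neg, map_sum]
  · rw [map_zero]

theorem xl_hom (n r : ℕ) (i₀ : Fin n) (F : Finset (Fin n)) : (xl n r i₀ F).IsHomogeneous 1 := by
  unfold xl
  split_ifs with h1 h2
  · exact isHomogeneous_X _ _
  · exact (IsHomogeneous.sum _ _ _ fun G _ => isHomogeneous_X _ _).neg
  · exact isHomogeneous_zero _ _ _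

theorem xc_fl {r : ℕ} (i₀ : Fin n) (G : Fl n r) :
    xc n r i₀ G.1 = Ideal.Quotient.mk (chowIdeal n r) (X G) := by
  unfold xc
  rw [dif_pos G.2]

theorem xc_univ {r : ℕ} (i₀ : Fin n) :
    xc n r i₀ Finset.univ = - ∑ G : Fl n r with i₀ ∈ G.1, xc n r i₀ G.1 := by
  conv_lhs => unfold xc
  rw [dif_neg (fun h => h.2.2 rfl), if_pos rfl]
  congr 1
  exact Finset.sum_congr rfl fun G _ => (xc_fl i₀ G).symm

theorem xc_zero {r : ℕ} (hn : 1 ≤ n) (i₀ : Fin n) (F : Finset (Fin n)) (h : ¬ IsFl r F) :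
    xc n r i₀ F = 0 := by
  have hu : F ≠ Finset.univ := by
    rintro rfl
    exact h (univ_isFl hn)
  unfold xc
  rw [dif_neg (fun h1 => h ((fl_iff hu).1 h1)), if_neg hu]

theorem rel_xc {r : ℕ} (hn : 1 ≤ n) (i₀ : Fin n) : Rel r (xc n r i₀) where
  zero := xc_zero hn i₀
  inc := by
    intro F G h1 h2
    by_cases hF : IsFl r F
    · by_cases hG : IsFl r G
      · have hFu : F ≠ Finset.univ := by
          rintro rfl
          exact h2 (Finset.subset_univ _)
        have hGu : G ≠ Finset.univ := by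
          rintro rfl
          exact h1 (Finset.subset_univ _)
        have e1 := xc_fl i₀ (⟨F, (fl_iff hFu).2 hF⟩ : Fl n r)
        have e2 := xc_fl i₀ (⟨G, (fl_iff hGu).2 hG⟩ : Fl n r)
        simp only at e1 e2
        rw [e1, e2, ← map_mul, Ideal.Quotient.eq_zero_iff_mem]
        exact Ideal.mem_sup_left (Ideal.subset_span ⟨_, _, h1, h2, rfl⟩)
      · rw [xc_zero hn i₀ G hG, mul_zero]
    · rw [xc_zero hn i₀ F hF, zero_mul]
  lin := by
    intro i
    rw [sum_fl (r := r) _ (xc_zero hn i₀) i, xc_univ, ← sub_eq_add_neg]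
    simp only [xc_fl]
    rw [← map_sum, ← map_sum, ← map_sub, Ideal.Quotient.eq_zero_iff_mem]
    exact Ideal.mem_sup_right (Ideal.subset_span ⟨_, _, rfl⟩)

theorem gr_xc {r : ℕ} (i₀ : Fin n) (k : ℕ) : gr n r k =
    Submodule.span ℚ {y | ∃ m : Ex n, m.degree = k ∧ y = mon (xc n r i₀) m} := by
  classical
  refine le_antisymm ?_ (Submodule.span_le.2 ?_)
  · unfold gr
    rw [Submodule.map_le_iff_le_comap]
    intro p hp
    rw [mem_homogeneousSubmodule] at hp
    rw [Submodule.mem_comap, p.as_sum, map_sum]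
    refine Submodule.sum_mem _ fun d hd => ?_
    have hdeg : d.degree = k := by
      have := hp (mem_support_iff.1 hd)
      rw [Finsupp.degree_eq_weight_one (R := ℕ)]
      exact this
    have h1 : (monomial d (coeff d p) : MvPolynomial (Fl n r) ℚ) =
        coeff d p • monomial d 1 := by
      rw [smul_monomial, smul_eq_mul, mul_one]
    rw [h1, map_smul]
    refine Submodule.smul_mem _ _ (Submodule.subset_span
      ⟨d.mapDomain Subtype.val, ?_, ?_⟩)
    · rw [Finsupp.degree_mapDomain]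
      exact hdeg
    · unfold mon
      rw [Finsupp.prod_mapDomain_index_inj Subtype.val_injective, monomial_eq, C_1, one_mul]
      simp only [AlgHom.toLinearMap_apply]
      rw [map_finsuppProd]
      refine Finsupp.prod_congr fun G _ => ?_
      rw [map_pow, xc_fl]
      rfl
  · rintro y ⟨m, hm, rfl⟩
    refine ⟨m.prod fun F a => xl n r i₀ F ^ a, ?_, ?_⟩
    · rw [SetLike.mem_coe, mem_homogeneousSubmodule]
      have h := IsHomogeneous.prod (R := ℚ) m.support (fun F => xl n r i₀ F ^ m F)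
        (fun F => 1 * m F) (fun F _ => (xl_hom n r i₀ F).pow (m F))
      have h2 : ∑ F ∈ m.support, 1 * m F = k := by
        rw [← hm, Finsupp.degree]
        simp
      rw [h2] at h
      exact h
    · unfold mon
      simp only [AlgHom.toLinearMap_apply]
      rw [map_finsuppProd]
      refine Finsupp.prod_congr fun G _ => ?_
      rw [map_pow, xc_eq]
      rfl

theorem p_map : P_MAP := by
  classical
  intro n r i₀ hr hrn
  have hn : 1 ≤ n := hr.trans hrn
  refine ⟨rel_xc hn i₀, gr_xc i₀, ?_⟩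
  have hz : ∀ F : Finset (Fin n), ¬ IsFl r F →
      Ideal.Quotient.mk (kI n r) (X F) = 0 := by
    intro F hF
    rw [Ideal.Quotient.eq_zero_iff_mem]
    exact Ideal.subset_span (Or.inl (Or.inl ⟨F, hF, rfl⟩))
  have hlin : ∀ i : Fin n, ∑ G : Fl n r with i ∈ G.1, Ideal.Quotient.mk (kI n r) (X G.1) =
      - Ideal.Quotient.mk (kI n r) (X Finset.univ) := by
    intro i
    have h1 := sum_fl (r := r) (fun F => Ideal.Quotient.mk (kI n r) (X F)) hz i
    have h2 : ∑ F : Finset (Fin n) with i ∈ F, Ideal.Quotient.mk (kI n r) (X F) = 0 := by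
      rw [← map_sum, Ideal.Quotient.eq_zero_iff_mem]
      exact Ideal.subset_span (Or.inr ⟨i, rfl⟩)
    rw [h2] at h1
    exact eq_neg_of_add_eq_zero_left h1.symm
  let f : MvPolynomial (Fl n r) ℚ →ₐ[ℚ] (MvPolynomial (Finset (Fin n)) ℚ ⧸ kI n r) :=
    aeval fun G => Ideal.Quotient.mk (kI n r) (X G.1)
  have hf : ∀ a ∈ chowIdeal n r, f a = 0 := by
    intro a ha
    have hle : chowIdeal n r ≤ RingHom.ker f := by
      unfold chowIdeal
      refine sup_le (Ideal.span_le.2 ?_) (Ideal.span_le.2 ?_)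
      · rintro p ⟨F, G, h1, h2, rfl⟩
        rw [SetLike.mem_coe, RingHom.mem_ker, map_mul]
        simp only [f, aeval_X]
        rw [← map_mul, Ideal.Quotient.eq_zero_iff_mem]
        exact Ideal.subset_span (Or.inl (Or.inr ⟨F.1, G.1, h1, h2, rfl⟩))
      · rintro p ⟨i, j, rfl⟩
        rw [SetLike.mem_coe, RingHom.mem_ker, map_sub, map_sum, map_sum]
        simp only [f, aeval_X]
        rw [hlin, hlin, sub_self]
    exact RingHom.mem_ker.1 (hle ha)
  refine ⟨Ideal.Quotient.liftₐ (chowIdeal n r) f hf, fun F => ?_⟩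
  rw [xc_eq]
  change Ideal.Quotient.liftₐ (chowIdeal n r) f hf (Ideal.Quotient.mk _ _) = _
  have h3 : ∀ p, Ideal.Quotient.liftₐ (chowIdeal n r) f hf (Ideal.Quotient.mk _ p) = f p :=
    fun p => rfl
  rw [h3]
  unfold xl
  split_ifs with h1 h2
  · simp only [f, aeval_X]
  · rw [map_neg, map_sum]
    simp only [f, aeval_X]
    rw [hlin, neg_neg, h2]
  · rw [map_zero]
    exact (hz F fun hfl => h1 ((fl_iff h2).2 hfl)).symm

end Pool.Agent.W2helper39.UC
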